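import Pool.Agent.Helper74.WB.St
import Pool.Agent.Helper74.NM.Defs

/-! # Project WB, module ENS: the coding, an innermost pair in the coded word -/

set_option autoImplicit false

namespace Pool.Agent.Helper97.WB

open Pool.Agent.Helper74 Pool.Agent.Helper74.WB

theorem enc_split {Λ : Type} (c : (Λ × Bool) × Bool) (p : List (((Λ × Bool) × Bool) × Bool))
    (a : ((Λ × Bool) × Bool) × Bool) (r : List (((Λ × Bool) × Bool) × Bool))
    (h : enc c = p ++ a :: r) :
    (p = [] ∧ a = ((c.1, true), true) ∧
      r = (if c.2 then [] else [((iv c.1, false), false)])) ∨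
    (c.2 = false ∧ p = [((c.1, true), true)] ∧ a = ((iv c.1, false), false) ∧ r = []) := by
  unfold enc at h
  rcases p with _ | ⟨b, p⟩
  · left
    simp only [List.nil_append, List.cons.injEq] at h
    exact ⟨rfl, h.1.symm, h.2.symm⟩
  · right
    simp only [List.cons_append, List.cons.injEq] at h
    obtain ⟨h1, h2⟩ := h
    rcases hc : c.2 with _ | _
    · rw [hc] at h2
      simp only [Bool.false_eq_true, if_false] at h2
      rcases p with _ | ⟨b', p⟩
      · simp only [List.nil_append, List.cons.injEq] at h2
        exact ⟨rfl, by rw [← h1], h2.1.symm, h2.2.symm⟩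
      · simp at h2
    · rw [hc] at h2
      simp at h2

theorem qw_enc {Λ : Type} (w : List ((Λ × Bool) × Bool)) : QW (w.flatMap enc) := by
  intro a ha
  rw [List.mem_flatMap] at ha
  obtain ⟨c, _, hc⟩ := ha
  unfold enc at hc
  rcases hb : c.2 with _ | _
  · rw [hb] at hc
    simp only [Bool.false_eq_true, if_false, List.mem_cons, List.not_mem_nil, or_false] at hc
    rcases hc with rfl | rfl <;> rfl
  · rw [hb] at hc
    simp only [if_true, List.mem_cons, List.not_mem_nil, or_false] at hc
    rw [hc]

/-- A letter which is not optional gives a demand. -/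
theorem opt_of_supplies {Λ : Type} (w : List ((Λ × Bool) × Bool))
    (h : ∀ a ∈ w.flatMap enc, a.1.2 = true) : ∀ a ∈ w, a.2 = true := by
  intro a ha
  rcases hb : a.2 with _ | _
  · have h1 : ((iv a.1, false), false) ∈ w.flatMap enc := by
      rw [List.mem_flatMap]
      refine ⟨a, ha, ?_⟩
      unfold enc
      rw [hb]
      simp
    exact absurd (h _ h1) (by simp)
  · rfl

theorem hENS (hINN : StINN) (hCAN : StCAN) : StENS := by
  intro Λ w hw
  rcases hINN (Λ × Bool) (w.flatMap enc) (qw_enc w) hw with h | h
  · exact Or.inl (opt_of_supplies w h)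
  right
  obtain ⟨α, S, β, x, o, o', e, hS, hop⟩ := h
  obtain ⟨w₁, c, w₂, p', r, e1, e2, e3, e4⟩ :=
    NM.flatMap_split enc w α (x, o) (S ++ (iv x, o') :: β) e
  rcases enc_split c p' (x, o) r e2 with ⟨hp, hx, hr⟩ | ⟨hc, hp, hx, hr⟩
  · -- the first letter is a supply
    simp only [Prod.mk.injEq] at hx
    obtain ⟨hx, ho⟩ := hx
    have hix : iv x = (c.1, false) := by
      rw [hx]
      rfl
    rcases hc : c.2 with _ | _
    · exfalso
      rw [hc] at hr
      simp only [Bool.false_eq_true, if_false] at hr
      rw [hr] at e4
      rcases S with _ | ⟨s, S⟩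
      · simp only [List.nil_append, List.cons_append, List.cons.injEq, Prod.mk.injEq] at e4
        have h1 := e4.1.1
        rw [hix] at h1
        simp only [Prod.mk.injEq, and_true] at h1
        exact iv_ne c.1 h1.symm
      · simp only [List.nil_append, List.cons_append, List.cons.injEq] at e4
        have h1 := hS s (by simp)
        rw [e4.1] at h1
        simp at h1
    · rw [hc] at hr
      simp only [if_true] at hr
      rw [hr, List.nil_append] at e4
      obtain ⟨w₃, d, w₄, q, r', f1, f2, f3, f4⟩ :=
        NM.flatMap_split enc w₂ S (iv x, o') β e4.symm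
      rcases enc_split d q (iv x, o') r' f2 with ⟨_, hy, _⟩ | ⟨hd, hq, hy, hr'⟩
      · exfalso
        simp only [Prod.mk.injEq] at hy
        have h1 := hy.1
        rw [hix] at h1
        simp at h1
      · simp only [Prod.mk.injEq] at hy
        have h1 := hy.1
        rw [hix] at h1
        simp only [Prod.mk.injEq, and_true] at h1
        have h2 : d.1 = iv c.1 := by
          rw [h1, iv_iv]
        refine ⟨w₁, w₃, w₄, c.1, true, false, ?_, ?_, Or.inr ⟨Or.inr rfl, ?_⟩⟩
        · rw [e1, f1]
          have hc' : c = (c.1, true) := by
            rw [← hc]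
          have hd' : d = (iv c.1, false) := by
            rw [← h2, ← hd]
          rw [← hc', ← hd']
        · refine opt_of_supplies w₃ fun a ha => hS a ?_
          rw [f3]
          exact List.mem_append_left _ ha
        · rw [e3, f4, hp, hr'] at hop
          simpa using hop
  · -- the first letter is a demand
    simp only [Prod.mk.injEq] at hx
    obtain ⟨hx, ho⟩ := hx
    have hix : iv x = (iv c.1, true) := by
      rw [hx]
      rfl
    rw [hr, List.nil_append] at e4
    obtain ⟨w₃, d, w₄, q, r', f1, f2, f3, f4⟩ :=
      NM.flatMap_split enc w₂ S (iv x, o') β e4.symm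
    rcases enc_split d q (iv x, o') r' f2 with ⟨hq, hy, hr'⟩ | ⟨_, _, hy, _⟩
    · simp only [Prod.mk.injEq] at hy
      have h1 := hy.1
      rw [hix] at h1
      simp only [Prod.mk.injEq, and_true] at h1
      have hopt : ∀ a ∈ w₃, a.2 = true := by
        refine opt_of_supplies w₃ fun a ha => hS a ?_
        rw [f3]
        exact List.mem_append_left _ ha
      have hc' : c = (c.1, false) := by
        rw [← hc]
      rcases hd : d.2 with _ | _
      · -- both are not optional
        rw [hd] at hr'
        simp only [Bool.false_eq_true, if_false] at hr'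
        rw [← h1, iv_iv] at hr'
        refine ⟨w₁, w₃, w₄, c.1, false, false, ?_, hopt, Or.inr ⟨Or.inl rfl, ?_⟩⟩
        · rw [e1, f1]
          have hd' : d = (iv c.1, false) := by
            rw [h1, ← hd]
          rw [← hc', ← hd']
        · rw [e3, f4, hp, hr'] at hop
          have h3 : w₁.flatMap enc ++ [((c.1, true), true)] ++
              ([((c.1, false), false)] ++ w₄.flatMap enc) =
              w₁.flatMap enc ++ ((c.1, true), true) :: ((c.1, false), false) ::
                w₄.flatMap enc := by
            simp
          rw [h3] at hop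
          have h4 := (hCAN (Λ × Bool) c.1 (w₁.flatMap enc) (w₄.flatMap enc) (qw_enc w₁)
            (qw_enc w₄)).1 hop
          rw [List.flatMap_append]
          exact h4
      · rw [hd] at hr'
        simp only [if_true] at hr'
        refine ⟨w₁, w₃, w₄, c.1, false, true, ?_, hopt, Or.inl ⟨rfl, rfl, ?_⟩⟩
        · rw [e1, f1]
          have hd' : d = (iv c.1, true) := by
            rw [h1, ← hd]
          rw [← hc', ← hd']
        · rw [e3, f4, hp, hr'] at hop
          have h3 : (w₁ ++ (c.1, true) :: w₄).flatMap enc =
              w₁.flatMap enc ++ [((c.1, true), true)] ++ ([] ++ w₄.flatMap enc) := by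
            simp [enc]
          rw [h3]
          exact hop
    · exfalso
      simp only [Prod.mk.injEq] at hy
      have h1 := hy.1
      rw [hix] at h1
      simp at h1

end Pool.Agent.Helper97.WB
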